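import Mathlib

namespace Pool.Agent.H.MP_15a5ff_al

open Topology Filter Set Pointwise

section weil

variable {W : Type} [CommGroup W] [TopologicalSpace W] [IsTopologicalGroup W]

theorem recur (w : W) (K : Set W) (hK : IsCompact K) (hinf : {a : ℤ | w ^ a ∈ K}.Infinite)
    (U : Set W) (hU : U ∈ 𝓝 (1 : W)) (M : ℕ) :
    ∃ n : ℕ, M ≤ n ∧ w ^ (n : ℤ) ∈ U ∧ w ^ (-(n : ℤ)) ∈ U := by
  obtain ⟨V, hV, hVU⟩ := exists_nhds_split_inv hU
  obtain ⟨t, ht⟩ := compact_covered_by_mul_left_translates hK (V := V)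
    ⟨1, mem_interior_iff_mem_nhds.mpr hV⟩
  have : ∃ g ∈ t, {a : ℤ | g * w ^ a ∈ V}.Infinite := by
    by_contra h
    push Not at h
    apply hinf
    refine (Set.Finite.biUnion t.finite_toSet h).subset ?_
    intro a ha
    have := ht ha
    simp only [mem_iUnion, mem_preimage] at this
    obtain ⟨g, hg, h1⟩ := this
    simp only [mem_iUnion]
    exact ⟨g, hg, h1⟩
  obtain ⟨g, -, hg⟩ := this
  obtain ⟨b, hb⟩ := hg.nonempty
  obtain ⟨a, ha, hab⟩ := hg.exists_notMem_finite (Set.finite_Icc (b - M) (b + M))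
  have h1 : w ^ (a - b) ∈ U := by
    have := hVU _ ha _ hb
    rwa [mul_div_mul_left_eq_div, div_eq_mul_inv, ← zpow_sub] at this
  have h2 : w ^ (b - a) ∈ U := by
    have := hVU _ hb _ ha
    rwa [mul_div_mul_left_eq_div, div_eq_mul_inv, ← zpow_sub] at this
  simp only [mem_Icc, not_and_or, not_le] at hab
  rcases hab with h | h
  · refine ⟨(b - a).toNat, by omega, ?_, ?_⟩
    · rw [Int.toNat_of_nonneg (by omega)]; exact h2
    · rw [Int.toNat_of_nonneg (by omega), neg_sub]; exact h1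
  · refine ⟨(a - b).toNat, by omega, ?_, ?_⟩
    · rw [Int.toNat_of_nonneg (by omega)]; exact h1
    · rw [Int.toNat_of_nonneg (by omega), neg_sub]; exact h2

theorem weil [LocallyCompactSpace W] [T2Space W] (w : W) (K : Set W) (hK : IsCompact K)
    (hinf : {a : ℤ | w ^ a ∈ K}.Infinite) :
    ∃ C : Subgroup W, IsCompact (C : Set W) ∧ w ∈ C := by
  let Γ := (Subgroup.zpowers w).topologicalClosure
  refine ⟨Γ, ?_, Subgroup.le_topologicalClosure _ (Subgroup.mem_zpowers w)⟩
  obtain ⟨U, hUc, hU⟩ := exists_compact_mem_nhds (1 : W)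
  have key : ∀ x ∈ Γ, ∃ n m : ℕ, 1 ≤ m ∧ w ^ (-(n : ℤ)) * x ∈ interior U ∧
      w ^ (m : ℤ) * x ∈ interior U := by
    intro x hx
    have hopen : IsOpen {y : W | y⁻¹ * x ∈ interior U} :=
      isOpen_interior.preimage (by fun_prop)
    have hx' : x ∈ closure (Subgroup.zpowers w : Set W) := hx
    obtain ⟨_, hy, a, rfl⟩ := mem_closure_iff.mp hx' _ hopen (by
      show x⁻¹ * x ∈ interior U
      rw [inv_mul_cancel]; exact mem_interior_iff_mem_nhds.mpr hU)
    have hn : {z : W | (w ^ a * z)⁻¹ * x ∈ interior U} ∈ 𝓝 (1 : W) := by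
      apply IsOpen.mem_nhds (isOpen_interior.preimage (by fun_prop))
      show (w ^ a * 1)⁻¹ * x ∈ interior U
      rw [mul_one]; exact hy
    obtain ⟨n, hn1, h1, h2⟩ := recur w K hK hinf _ hn (a.natAbs + 1)
    refine ⟨(a + n).toNat, (n - a).toNat, by omega, ?_, ?_⟩
    · rw [Int.toNat_of_nonneg (by omega), zpow_neg, zpow_add]; exact h1
    · rw [Int.toNat_of_nonneg (by omega)]
      have : w ^ ((n : ℤ) - a) = (w ^ a * w ^ (-(n : ℤ)))⁻¹ := by
        rw [← zpow_add, ← zpow_neg]; congr 1; ring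
      rw [this]; exact h2
  have hΓ : IsClosed (Γ : Set W) := Subgroup.isClosed_topologicalClosure _
  obtain ⟨t, ht⟩ := (hUc.inter_right hΓ).elim_finite_subcover
    (fun m : ℕ => {x : W | w ^ ((m + 1 : ℕ) : ℤ) * x ∈ interior U})
    (fun m => isOpen_interior.preimage (by fun_prop)) (by
      rintro x ⟨-, hx⟩
      obtain ⟨n, m, hm, -, h⟩ := key x hx
      refine mem_iUnion.mpr ⟨m - 1, ?_⟩
      show w ^ ((m - 1 + 1 : ℕ) : ℤ) * x ∈ interior U
      rw [Nat.sub_add_cancel hm]; exact h)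
  let N := t.sup id
  have hsub : (Γ : Set W) ⊆ ⋃ n ∈ Finset.range (N + 1), (fun u => w ^ (n : ℤ) * u) '' U := by
    intro x hx
    have hex : ∃ n : ℕ, w ^ (-(n : ℤ)) * x ∈ U := by
      obtain ⟨n, m, -, h, -⟩ := key x hx
      exact ⟨n, interior_subset h⟩
    classical
    let n := Nat.find hex
    have hn : w ^ (-(n : ℤ)) * x ∈ U := Nat.find_spec hex
    have hmem : w ^ (-(n : ℤ)) * x ∈ Γ :=
      Γ.mul_mem (Subgroup.le_topologicalClosure _ (Subgroup.zpow_mem_zpowers w _)) hx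
    have := ht ⟨hn, hmem⟩
    simp only [mem_iUnion, mem_ofPred_eq] at this
    obtain ⟨m, hm, h⟩ := this
    have hmN : m ≤ N := Finset.le_sup (f := id) hm
    have hnN : n < N + 1 := by
      by_contra hlt
      have h2 : n - (m + 1) < n := by omega
      apply Nat.find_min hex h2
      have : (-((n - (m + 1) : ℕ) : ℤ)) = ((m + 1 : ℕ) : ℤ) + -(n : ℤ) := by omega
      rw [this, zpow_add, mul_assoc]
      exact interior_subset h
    simp only [mem_iUnion]
    refine ⟨n, Finset.mem_range.mpr hnN, _, hn, ?_⟩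
    show w ^ (n : ℤ) * (w ^ (-(n : ℤ)) * x) = x
    rw [← mul_assoc, ← zpow_add, add_neg_cancel, zpow_zero, one_mul]
  refine IsCompact.of_isClosed_subset ?_ hΓ hsub
  exact (Finset.range (N + 1)).isCompact_biUnion fun n _ => hUc.image (by fun_prop)

theorem cpt_mul {x y : W} (hx : ∃ C : Subgroup W, IsCompact (C : Set W) ∧ x ∈ C)
    (hy : ∃ C : Subgroup W, IsCompact (C : Set W) ∧ y ∈ C) :
    ∃ C : Subgroup W, IsCompact (C : Set W) ∧ x ∈ C ∧ y ∈ C := by
  obtain ⟨C, hC, hx⟩ := hx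
  obtain ⟨D, hD, hy⟩ := hy
  refine ⟨C ⊔ D, ?_, Subgroup.mem_sup_left hx, Subgroup.mem_sup_right hy⟩
  rw [Subgroup.mul_normal]
  exact hC.mul hD

theorem cpt_fin (F : Finset W) (h : ∀ x ∈ F, ∃ C : Subgroup W, IsCompact (C : Set W) ∧ x ∈ C) :
    ∃ C : Subgroup W, IsCompact (C : Set W) ∧ ∀ x ∈ F, x ∈ C := by
  classical
  induction F using Finset.induction_on with
  | empty => exact ⟨⊥, by simp, by simp⟩
  | insert a F ha ih =>
    obtain ⟨C, hC, hF⟩ := ih fun x hx => h x (Finset.mem_insert_of_mem hx)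
    obtain ⟨D, hD, haD⟩ := h a (Finset.mem_insert_self _ _)
    refine ⟨C ⊔ D, ?_, ?_⟩
    · rw [Subgroup.mul_normal]
      exact hC.mul hD
    · intro x hx
      rcases Finset.mem_insert.mp hx with rfl | hx
      · exact Subgroup.mem_sup_right haD
      · exact Subgroup.mem_sup_left (hF x hx)

theorem cpt_open [LocallyCompactSpace W] [T2Space W] (O : Set W) (hO : O ∈ 𝓝 (1 : W))
    (h : ∀ x ∈ O, ∃ C : Subgroup W, IsCompact (C : Set W) ∧ x ∈ C) :
    ∃ P : Subgroup W, IsCompact (P : Set W) ∧ IsOpen (P : Set W) := by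
  obtain ⟨B0, hB0, hB0O, hB0c⟩ := local_compact_nhds hO
  let B := B0 ∩ B0⁻¹
  have hB : B ∈ 𝓝 (1 : W) := inter_mem hB0 (inv_mem_nhds_one W hB0)
  have hBc : IsCompact B := hB0c.inter hB0c.inv
  have hBi : ∀ x ∈ B, x⁻¹ ∈ B := fun x hx => ⟨hx.2, by simpa using hx.1⟩
  obtain ⟨F, hF, hcov⟩ := (hBc.mul hBc).elim_nhds_subcover (fun x => {y | x⁻¹ * y ∈ B})
    (fun x _ => by
      have : ContinuousAt (fun y => x⁻¹ * y) x := by fun_prop
      apply this
      show B ∈ 𝓝 (x⁻¹ * x)
      rw [inv_mul_cancel]; exact hB)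
  obtain ⟨C, hC, hFC⟩ := cpt_fin F (by
    intro x hx
    obtain ⟨a, ha, b, hb, rfl⟩ := hF x hx
    obtain ⟨C, hC, h1, h2⟩ := cpt_mul (h a (hB0O ha.1)) (h b (hB0O hb.1))
    exact ⟨C, hC, C.mul_mem h1 h2⟩)
  have step : ∀ x ∈ B, ∀ y ∈ (C : Set W) * B, x * y ∈ (C : Set W) * B := by
    rintro x hx _ ⟨c, hc, b, hb, rfl⟩
    have := hcov (Set.mul_mem_mul hx hb)
    simp only [mem_iUnion, mem_ofPred_eq] at this
    obtain ⟨f, hf, h1⟩ := this
    refine ⟨c * f, C.mul_mem hc (hFC f hf), _, h1, ?_⟩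
    show c * f * (f⁻¹ * (x * b)) = x * (c * b)
    rw [mul_assoc, mul_inv_cancel_left, mul_left_comm]
  have hsub : (Subgroup.closure B : Set W) ⊆ (C : Set W) * B := by
    intro x hx
    induction hx using Subgroup.closure_induction_left with
    | one => exact ⟨1, C.one_mem, 1, mem_of_mem_nhds hB, one_mul 1⟩
    | mul_left x hx y _ ih => exact step x hx y ih
    | inv_mul_cancel x hx y _ ih => exact step _ (hBi x hx) y ih
  have hopen : IsOpen (Subgroup.closure B : Set W) :=
    Subgroup.isOpen_of_mem_nhds _ (mem_of_superset hB Subgroup.subset_closure)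
  exact ⟨_, (hC.mul hBc).of_isClosed_subset (Subgroup.isClosed_of_isOpen _ hopen) hsub, hopen⟩

theorem relIndex_ne (A B : Subgroup W) (hA : IsOpen (A : Set W)) (hB : IsCompact (B : Set W)) :
    A.relIndex B ≠ 0 := by
  have : CompactSpace B := isCompact_iff_compactSpace.mp hB
  have := Subgroup.quotient_finite_of_isOpen _ (Subgroup.subgroupOf_isOpen B A hA)
  exact Subgroup.index_ne_zero_of_finite

noncomputable def qq (A B : Subgroup W) : ℚ := (B.relIndex A : ℚ) / (A.relIndex B : ℚ)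

theorem qq_eq (A B D : Subgroup W) (hD : IsOpen (D : Set W)) (hA : IsCompact (A : Set W))
    (hB : IsCompact (B : Set W)) (h1 : D ≤ A) (h2 : D ≤ B) :
    qq A B = (D.relIndex A : ℚ) / (D.relIndex B : ℚ) := by
  have e1 := Subgroup.relIndex_mul_relIndex D (A ⊓ B) A (le_inf h1 h2) inf_le_left
  have e2 := Subgroup.relIndex_mul_relIndex D (A ⊓ B) B (le_inf h1 h2) inf_le_right
  rw [Subgroup.inf_relIndex_left] at e1
  rw [Subgroup.inf_relIndex_right] at e2
  have h3 : D.relIndex (A ⊓ B) ≠ 0 := by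
    intro h
    rw [h, zero_mul] at e1
    exact relIndex_ne D A hD hA e1.symm
  rw [← e1, ← e2, qq]
  push_cast
  rw [mul_div_mul_left _ _ (by exact_mod_cast h3)]

theorem qq_mul (A B C : Subgroup W) (hA : IsCompact (A : Set W)) (hB : IsCompact (B : Set W))
    (hC : IsCompact (C : Set W)) (hA' : IsOpen (A : Set W)) (hB' : IsOpen (B : Set W))
    (hC' : IsOpen (C : Set W)) : qq A C = qq A B * qq B C := by
  have hD : IsOpen ((A ⊓ B ⊓ C : Subgroup W) : Set W) := (hA'.inter hB').inter hC'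
  rw [qq_eq A C _ hD hA hC (inf_le_left.trans inf_le_left) inf_le_right,
    qq_eq A B _ hD hA hB (inf_le_left.trans inf_le_left) (inf_le_left.trans inf_le_right),
    qq_eq B C _ hD hB hC (inf_le_left.trans inf_le_right) inf_le_right]
  have : ((A ⊓ B ⊓ C).relIndex B : ℚ) ≠ 0 := by exact_mod_cast relIndex_ne _ B hD hB
  field_simp

theorem rat_root (q : ℚ) (N : ℕ) (hN : 2 ≤ N) : q ^ N ≠ N := by
  intro h
  have h1 : (q ^ N).den = 1 := by rw [h]; rfl
  rw [Rat.den_pow] at h1
  have h2 : q.den = 1 := (Nat.pow_eq_one.mp h1).resolve_right (by omega)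
  have h3 : (q ^ N).num = N := by rw [h]; rfl
  rw [Rat.num_pow] at h3
  have h4 := congrArg Int.natAbs h3
  rw [Int.natAbs_pow, Int.natAbs_natCast] at h4
  rcases Nat.lt_or_ge q.num.natAbs 2 with h5 | h5
  · have : q.num.natAbs ^ N ≤ 1 ^ N := Nat.pow_le_pow_left (by omega) _
    rw [one_pow] at this
    omega
  · have := Nat.lt_pow_self (n := N) (show 1 < q.num.natAbs by omega)
    omega

theorem no_cpt_open [LocallyCompactSpace W] [T2Space W] [SecondCountableTopology W] [Uncountable W]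
    (D : ℝ → W →* W) (hD : ∀ a, Continuous (D a)) (h0 : ∀ w, D 0 w = w)
    (hadd : ∀ a b w, D (a + b) w = D a (D b w))
    (hsub : ∀ a b, b < a → ∃ c, ∀ w, D a w / D b w = D c w)
    (P : Subgroup W) (hP : IsCompact (P : Set W)) (hP' : IsOpen (P : Set W)) : False := by
  obtain ⟨x, hx, hx1⟩ : ∃ x ∈ P, x ≠ 1 := by
    by_contra h
    push Not at h
    have : (P : Set W) = {1} := Set.eq_singleton_iff_unique_mem.mpr ⟨P.one_mem, h⟩
    rw [this] at hP'
    have := discreteTopology_iff_isOpen_singleton_one.mpr hP'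
    have : Countable W := TopologicalSpace.separableSpace_iff_countable.mp inferInstance
    exact not_countable (α := W) this
  have : CompactSpace P := isCompact_iff_compactSpace.mp hP
  have : LocallyCompactSpace P := hP.isClosed.isClosedEmbedding_subtypeVal.locallyCompactSpace
  have : SecondCountableTopology P := TopologicalSpace.Subtype.secondCountableTopology _
  let f : ℝ → C(P, W) := fun a => ⟨fun p => D a p, (hD a).comp continuous_subtype_val⟩
  have hU : {g : C(P, W) | MapsTo g univ ((P : Set W) \ {x})} ∈ 𝓝 (1 : C(P, W)) := by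
    apply ContinuousMap.eventually_mapsTo isCompact_univ (hP'.sdiff isClosed_singleton)
    intro p _
    exact ⟨P.one_mem, fun h => hx1 (Eq.symm h)⟩
  obtain ⟨V, hV, hVU⟩ := exists_nhds_split_inv hU
  obtain ⟨s, hs, hcov⟩ := TopologicalSpace.countable_cover_nhds
    (f := fun g : C(P, W) => {h | g⁻¹ * h ∈ V}) (fun g => by
      have : ContinuousAt (fun y => g⁻¹ * y) g := by fun_prop
      apply this
      show V ∈ 𝓝 (g⁻¹ * g)
      rw [inv_mul_cancel]; exact hV)
  have hch : ∀ a : ℝ, ∃ g : s, g.1⁻¹ * f a ∈ V := by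
    intro a
    have : f a ∈ ⋃ g ∈ s, {h | g⁻¹ * h ∈ V} := by rw [hcov]; trivial
    simp only [mem_iUnion] at this
    obtain ⟨g, hg, h⟩ := this
    exact ⟨⟨g, hg⟩, h⟩
  choose g hg using hch
  have : Countable s := hs.to_subtype
  obtain ⟨a, b, hab, hlt⟩ : ∃ a b : ℝ, g a = g b ∧ b < a := by
    obtain ⟨a, b, hab, hne⟩ := Function.not_injective_iff.mp (not_injective_uncountable_countable g)
    rcases lt_or_gt_of_ne hne with h | h
    · exact ⟨b, a, hab.symm, h⟩
    · exact ⟨a, b, hab, h⟩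
  obtain ⟨c, hc⟩ := hsub a b hlt
  have hmap : ∀ p ∈ P, D c p ∈ P ∧ D c p ≠ x := by
    intro p hp
    have h1 := hVU _ (hg a) _ (hg b)
    rw [hab, mul_div_mul_left_eq_div] at h1
    have h2 := h1 (mem_univ (⟨p, hp⟩ : P))
    rw [← hc]
    exact h2
  have hinj : ∀ a, Function.Injective (D a) := by
    intro a u v h
    have := congrArg (D (-a)) h
    rwa [← hadd, ← hadd, neg_add_cancel, h0, h0] at this
  have hc1 : ∀ a, IsCompact (P.map (D a) : Set W) := fun a => hP.image (hD a)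
  have ho1 : ∀ a, IsOpen (P.map (D a) : Set W) := by
    intro a
    have : (P.map (D a) : Set W) = D (-a) ⁻¹' P := by
      ext y
      constructor
      · rintro ⟨p, hp, rfl⟩
        show D (-a) (D a p) ∈ P
        rw [← hadd, neg_add_cancel, h0]; exact hp
      · intro hy
        exact ⟨_, hy, by rw [← hadd, add_neg_cancel, h0]⟩
    rw [this]
    exact hP'.preimage (hD _)
  have hmm : ∀ a b, P.map (D (a + b)) = (P.map (D b)).map (D a) := by
    intro a b
    rw [Subgroup.map_map]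
    congr 1
    ext w
    exact hadd a b w
  have hm0 : P.map (D 0) = P := by
    have : D 0 = MonoidHom.id W := by ext w; exact h0 w
    rw [this, Subgroup.map_id]
  have hpow : ∀ (r : ℝ) (k : ℕ), qq P (P.map (D (k * r))) = qq P (P.map (D r)) ^ k := by
    intro r k
    induction k with
    | zero =>
      rw [Nat.cast_zero, zero_mul, hm0, pow_zero, qq, Subgroup.relIndex_self]
      norm_num
    | succ k ih =>
      rw [qq_mul P (P.map (D (k * r))) _ hP (hc1 _) (hc1 _) hP' (ho1 _) (ho1 _), ih, pow_succ]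
      congr 1
      have : ((k + 1 : ℕ) : ℝ) * r = k * r + r := by push_cast; ring
      rw [this, hmm, qq, qq, Subgroup.relIndex_map_map_of_injective _ _ (hinj _),
        Subgroup.relIndex_map_map_of_injective _ _ (hinj _)]
  have hle : P.map (D c) ≤ P := by
    rintro _ ⟨p, hp, rfl⟩
    exact (hmap p hp).1
  let N := (P.map (D c)).relIndex P
  have hN0 : N ≠ 0 := relIndex_ne _ _ (ho1 c) hP
  have hN1 : N ≠ 1 := by
    intro h
    obtain ⟨p, hp, e⟩ := Subgroup.relIndex_eq_one.mp h hx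
    exact (hmap p hp).2 e
  have hq : qq P (P.map (D c)) = N := by
    rw [qq, Subgroup.relIndex_eq_one.mpr hle]
    simp [N]
  have := hpow (c / N) N
  rw [mul_div_cancel₀ _ (by exact_mod_cast hN0), hq] at this
  exact rat_root _ N (by omega) this.symm

theorem exists_discrete [LocallyCompactSpace W] [T2Space W] [SecondCountableTopology W]
    [Uncountable W]
    (D : ℝ → W →* W) (hD : ∀ a, Continuous (D a)) (h0 : ∀ w, D 0 w = w)
    (hadd : ∀ a b w, D (a + b) w = D a (D b w))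
    (hsub : ∀ a b, b < a → ∃ c, ∀ w, D a w / D b w = D c w)
    (O : Set W) (hO : O ∈ 𝓝 (1 : W)) :
    ∃ w ∈ O, ∀ K : Set W, IsCompact K → {a : ℤ | w ^ a ∈ K}.Finite := by
  by_contra h
  push Not at h
  obtain ⟨P, h1, h2⟩ := cpt_open O hO fun x hx => by
    obtain ⟨K, hK, hinf⟩ := h x hx
    exact weil x K hK hinf
  exact no_cpt_open D hD h0 hadd hsub P h1 h2

end weil

end Pool.Agent.H.MP_15a5ff_al
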