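import Pool.Agent.H.MP_15a5ff_al.A

namespace Pool.Agent.H.MP_15a5ff_al

open Topology Filter Set Pointwise

section one

variable {S : Type} [Group S] [TopologicalSpace S] [IsTopologicalGroup S] [T2Space S]

theorem clos_eq (H : Subgroup S) (f g : S → S) (hf : Continuous f) (hg : Continuous g)
    (h : ∀ x ∈ H, f x = g x) : ∀ x ∈ H.topologicalClosure, f x = g x := by
  intro x hx
  exact closure_minimal (t := {x | f x = g x}) h (isClosed_eq hf hg) hx

theorem clos_comm (H K : Subgroup S) (h : ∀ x ∈ H, ∀ y ∈ K, x * y = y * x) :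
    ∀ x ∈ H.topologicalClosure, ∀ y ∈ K.topologicalClosure, x * y = y * x := by
  intro x hx
  apply clos_eq K _ _ (by fun_prop) (by fun_prop)
  intro y hy
  exact clos_eq H (fun x => x * y) (fun x => y * x) (by fun_prop) (by fun_prop)
    (fun x hx => h x hx y hy) x hx

theorem line [LocallyCompactSpace S] [SecondCountableTopology S]
    (u : Multiplicative ℝ →* S) (hu : Function.Injective u) (d : ℝ → S)
    (hd : ∀ a b, d (a + b) = d a * d b)
    (hdu : ∀ a x, d a * u (Multiplicative.ofAdd x) * (d a)⁻¹ =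
      u (Multiplicative.ofAdd (Real.exp a * x)))
    (O : Set S) (hO : O ∈ 𝓝 (1 : S)) :
    ∃ w ∈ u.range.topologicalClosure, w ∈ O ∧
      ∀ K : Set S, IsCompact K → {a : ℤ | w ^ a ∈ K}.Finite := by
  let W := u.range.topologicalClosure
  have hW : IsClosed (W : Set S) := Subgroup.isClosed_topologicalClosure _
  have hcomm : ∀ x ∈ W, ∀ y ∈ W, x * y = y * x := by
    apply clos_comm
    rintro _ ⟨a, rfl⟩ _ ⟨b, rfl⟩
    rw [← map_mul, ← map_mul, mul_comm]
  letI : CommGroup W := { (inferInstance : Group W) with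
    mul_comm := fun x y => Subtype.ext (hcomm _ x.2 _ y.2) }
  have : LocallyCompactSpace W := hW.isClosedEmbedding_subtypeVal.locallyCompactSpace
  have : SecondCountableTopology W := TopologicalSpace.Subtype.secondCountableTopology _
  have : Uncountable W := by
    have hinj : Function.Injective (fun x : ℝ => (⟨u (Multiplicative.ofAdd x),
        Subgroup.le_topologicalClosure _ ⟨_, rfl⟩⟩ : W)) := by
      intro x y h
      exact Multiplicative.ofAdd.injective (hu (congrArg Subtype.val h))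
    exact hinj.uncountable
  have hmem : ∀ a, ∀ x ∈ W, d a * x * (d a)⁻¹ ∈ W := by
    intro a x hx
    refine closure_minimal (t := (fun x => d a * x * (d a)⁻¹) ⁻¹' W) ?_
      (hW.preimage (by fun_prop)) hx
    rintro _ ⟨y, rfl⟩
    have := hdu a y.toAdd
    show d a * u y * (d a)⁻¹ ∈ W
    rw [ofAdd_toAdd] at this
    rw [this]
    exact Subgroup.le_topologicalClosure _ ⟨_, rfl⟩
  let D : ℝ → W →* W := fun a =>
    { toFun := fun x => ⟨d a * x * (d a)⁻¹, hmem a _ x.2⟩
      map_one' := Subtype.ext (by simp)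
      map_mul' := fun x y => Subtype.ext (by
        show d a * (x * y) * (d a)⁻¹ = d a * x * (d a)⁻¹ * (d a * y * (d a)⁻¹)
        group) }
  have hd0 : d 0 = 1 := by
    have := hd 0 0
    rw [add_zero] at this
    exact (left_eq_mul.mp this)
  obtain ⟨w, hw, hfin⟩ := exists_discrete D
    (fun a => Continuous.subtype_mk (by fun_prop) _)
    (fun w => Subtype.ext (by
      show d 0 * w * (d 0)⁻¹ = w
      rw [hd0]; simp))
    (fun a b w => Subtype.ext (by
      show d (a + b) * w * (d (a + b))⁻¹ = d a * (d b * w * (d b)⁻¹) * (d a)⁻¹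
      rw [hd]; group))
    (fun a b hab => ⟨Real.log (Real.exp a - Real.exp b), fun w => Subtype.ext (by
      show d a * w * (d a)⁻¹ / (d b * w * (d b)⁻¹) = d _ * w * (d _)⁻¹
      refine clos_eq u.range (fun w => d a * w * (d a)⁻¹ / (d b * w * (d b)⁻¹))
        (fun w => d _ * w * (d _)⁻¹) (by fun_prop) (by fun_prop) ?_ w w.2
      rintro _ ⟨y, rfl⟩
      rw [← ofAdd_toAdd y, hdu, hdu, hdu, ← map_div, ← ofAdd_sub,
        Real.exp_log (sub_pos.mpr (Real.exp_lt_exp.mpr hab)), sub_mul])⟩)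
    (Subtype.val ⁻¹' O) (continuous_subtype_val.continuousAt.preimage_mem_nhds hO)
  refine ⟨w, w.2, hw, fun K hK => ?_⟩
  exact hfin (Subtype.val ⁻¹' K) (hW.isClosedEmbedding_subtypeVal.isCompact_preimage hK)

end one

theorem count {V : Type} [CommGroup V] {T : Type} [Fintype T] (B : Set V) (h1 : (1 : V) ∈ B)
    (y : T → V) (hB : ∀ a ∈ B, ∀ b ∈ B, ∃ t, ∃ c ∈ B, a * b = y t * c)
    (n : ℕ) (hn : Fintype.card T < n) (w : Fin n → V) (hw : ∀ i, w i ∈ B) (R : ℕ)
    (hR : ∀ a : Fin n → ℤ, ∀ b ∈ B, ∀ c ∈ B, ∏ i, w i ^ a i = b / c → ∀ i, (a i).natAbs < R) :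
    False := by
  classical
  let E : ℕ → Set V := fun k => {x | ∃ b : T → ℕ, (∀ t, b t ≤ k) ∧ ∃ c ∈ B, x = (∏ t, y t ^ b t) * c}
  have e0 : (1 : V) ∈ E 0 := ⟨0, by simp, 1, h1, by simp⟩
  have e1 : ∀ k, ∀ x ∈ E k, ∀ z ∈ B, x * z ∈ E (k + 1) := by
    rintro k _ ⟨b, hb, c, hc, rfl⟩ z hz
    obtain ⟨t, c', hc', e⟩ := hB c hc z hz
    refine ⟨b + Pi.single t 1, fun s => ?_, c', hc', ?_⟩
    · have := hb s
      by_cases h : s = t
      · subst h; simp; omega
      · simp [h]; omega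
    · simp only [Pi.add_apply, pow_add, Finset.prod_mul_distrib]
      have : ∏ s, y s ^ (Pi.single t 1 : T → ℕ) s = y t := by
        rw [Finset.prod_eq_single t]
        · simp
        · intro s _ hs; simp [hs]
        · simp
      rw [this, mul_assoc, e, mul_assoc]
  have e2 : ∀ k, ∀ x ∈ E k, ∀ z ∈ B, ∀ m : ℕ, x * z ^ m ∈ E (k + m) := by
    intro k x hx z hz m
    induction m with
    | zero => simpa using hx
    | succ m ih => rw [pow_succ, ← mul_assoc, ← add_assoc]; exact e1 _ _ ih z hz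
  have e3 : ∀ (a : Fin n → ℕ) (s : Finset (Fin n)), ∏ i ∈ s, w i ^ a i ∈ E (∑ i ∈ s, a i) := by
    intro a s
    induction s using Finset.induction_on with
    | empty => simpa using e0
    | insert i s hi ih =>
      rw [Finset.prod_insert hi, Finset.sum_insert hi, mul_comm, add_comm]
      exact e2 _ _ ih _ (hw i) _
  have hR0 : 0 < R := by
    have := hR 0 1 h1 1 h1 (by simp) ⟨0, by omega⟩
    omega
  let k := (n * R + 1) ^ Fintype.card T
  have hex : ∀ a : Fin n → Fin (k + 1), ∃ b : T → Fin (n * R * k + 1), ∃ c ∈ B,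
      ∏ i, w i ^ (R * (a i : ℕ)) = (∏ t, y t ^ (b t : ℕ)) * c := by
    intro a
    obtain ⟨b, hb, c, hc, e⟩ := e3 (fun i => R * (a i : ℕ)) Finset.univ
    have hs : ∑ i : Fin n, R * (a i : ℕ) ≤ n * R * k := by
      calc _ ≤ ∑ _i : Fin n, R * k :=
            Finset.sum_le_sum fun i _ => Nat.mul_le_mul_left _ (Nat.lt_succ_iff.mp (a i).2)
        _ = _ := by simp [mul_assoc]
    exact ⟨fun t => ⟨b t, by have := hb t; omega⟩, c, hc, e⟩
  choose b c hc e using hex
  have hinj : Function.Injective b := by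
    intro a a' h
    have := hR (fun i => ((R * (a i : ℕ) : ℕ) : ℤ) - ((R * (a' i : ℕ) : ℕ) : ℤ)) _ (hc a) _ (hc a')
      (by
        simp only [zpow_sub, zpow_natCast, Finset.prod_mul_distrib, Finset.prod_inv_distrib]
        rw [e a, e a', h, ← div_eq_mul_inv, mul_div_mul_left_eq_div])
    funext i
    apply Fin.ext
    have h2 := this i
    have h3 : ((R * (a i : ℕ) : ℕ) : ℤ) - ((R * (a' i : ℕ) : ℕ) : ℤ) =
        (R : ℤ) * (((a i : ℕ) : ℤ) - ((a' i : ℕ) : ℤ)) := by push_cast; ring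
    simp only [h3, Int.natAbs_mul, Int.natAbs_natCast] at h2
    have h4 : (((a i : ℕ) : ℤ) - ((a' i : ℕ) : ℤ)).natAbs = 0 := by
      by_contra h5
      have := Nat.le_mul_of_pos_right R (Nat.pos_of_ne_zero h5)
      omega
    omega
  have hcard := Fintype.card_le_of_injective b hinj
  simp only [Fintype.card_fun, Fintype.card_fin] at hcard
  have h2 : (n * R * k + 1) ^ Fintype.card T ≤ k * (k + 1) ^ Fintype.card T := by
    calc _ ≤ ((n * R + 1) * (k + 1)) ^ Fintype.card T := Nat.pow_le_pow_left (by nlinarith) _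
      _ = _ := by rw [mul_pow]
  have h3 : (k + 1) * (k + 1) ^ Fintype.card T ≤ (k + 1) ^ n := by
    rw [← pow_succ']
    exact Nat.pow_le_pow_right (by omega) hn
  have h4 : 0 < (k + 1) ^ Fintype.card T := by positivity
  nlinarith

theorem main {S : Type} [Group S] [TopologicalSpace S] [IsTopologicalGroup S] [T2Space S]
    [LocallyCompactSpace S] [SecondCountableTopology S] : ∃ n : ℕ,
    ∀ (u : Fin n → Multiplicative ℝ →* S) (d : Fin n → ℝ → S),
      (∀ i, Function.Injective (u i)) → (∀ i a b, d i (a + b) = d i a * d i b) →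
      (∀ i a x, d i a * u i (Multiplicative.ofAdd x) * (d i a)⁻¹ =
        u i (Multiplicative.ofAdd (Real.exp a * x))) →
      (∀ i j x y, u i x * u j y = u j y * u i x) →
      (∀ i j a y, i ≠ j → d i a * u j y = u j y * d i a) → False := by
  classical
  obtain ⟨N, hNc, hN⟩ := exists_compact_mem_nhds (1 : S)
  let N2 : Set S := N⁻¹ * N
  have hN2 : IsCompact N2 := hNc.inv.mul hNc
  obtain ⟨T, hT⟩ := compact_covered_by_mul_left_translates (hN2.mul hN2) (V := N)
    ⟨1, mem_interior_iff_mem_nhds.mpr hN⟩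
  refine ⟨T.card + 1, fun u d hu hd hdu huu hdd => ?_⟩
  have hN2n : N2 ∈ 𝓝 (1 : S) := mem_of_superset hN fun x hx =>
    ⟨1, by simpa using mem_of_mem_nhds hN, x, hx, one_mul x⟩
  choose w hw1 hw2 hw3 using fun i => line (u i) (hu i) (d i) (hd i) (hdu i) N2 hN2n
  have hww : ∀ i j, w i * w j = w j * w i := by
    intro i j
    refine clos_comm _ _ ?_ _ (hw1 i) _ (hw1 j)
    rintro _ ⟨a, rfl⟩ _ ⟨b, rfl⟩
    exact huu _ _ _ _
  let V : Subgroup S := Subgroup.closure (Set.range w)
  letI : CommGroup V := Subgroup.closureCommGroupOfComm (by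
    rintro _ ⟨i, rfl⟩ _ ⟨j, rfl⟩
    exact hww i j)
  let w' : Fin (T.card + 1) → V := fun i => ⟨w i, Subgroup.subset_closure ⟨i, rfl⟩⟩
  have hy : ∀ t : T, ∃ y : V, ∀ x : V, t.1 * x ∈ N → ((y⁻¹ * x : V) : S) ∈ N2 := by
    intro t
    by_cases h : ∃ y : V, t.1 * y ∈ N
    · obtain ⟨y, hy⟩ := h
      refine ⟨y, fun x hx => ⟨(t.1 * y)⁻¹, by simpa using hy, _, hx, ?_⟩⟩
      show (t.1 * y)⁻¹ * (t.1 * x) = (y : S)⁻¹ * x
      group
    · exact ⟨1, fun x hx => absurd ⟨x, hx⟩ h⟩
  choose y hy using hy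
  let p : Fin (T.card + 1) → S → S := fun i x =>
    d i (Real.log 2) * x * (d i (Real.log 2))⁻¹ * x⁻¹
  have hfin : ∀ i, {a : ℤ | w i ^ a ∈ p i '' (N2 * N2⁻¹)}.Finite := fun i =>
    hw3 i _ ((hN2.mul hN2.inv).image (by fun_prop))
  obtain ⟨R, hR⟩ : ∃ R : ℕ, ∀ i, ∀ a : ℤ, w i ^ a ∈ p i '' (N2 * N2⁻¹) → a.natAbs < R := by
    obtain ⟨R, hR⟩ := ((Set.finite_iUnion hfin).image Int.natAbs).bddAbove
    refine ⟨R + 1, fun i a ha => Nat.lt_succ_of_le (hR ⟨a, mem_iUnion.mpr ⟨i, ha⟩, rfl⟩)⟩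
  refine count (V := V) (T := T) {x | (x : S) ∈ N2} (show (1 : S) ∈ N2 from mem_of_mem_nhds hN2n) y ?_ (T.card + 1)
    (by simp) w' hw2 R ?_
  · intro a ha b hb
    have := hT (Set.mul_mem_mul ha hb)
    simp only [mem_iUnion, mem_preimage] at this
    obtain ⟨t, ht, h⟩ := this
    exact ⟨⟨t, ht⟩, _, hy ⟨t, ht⟩ (a * b) h, by rw [mul_inv_cancel_left]⟩
  · intro a b hb c hc e i
    apply hR i
    refine ⟨(b / c : V), ⟨b, hb, (c : S)⁻¹, by simpa using hc, by simp [div_eq_mul_inv]⟩, ?_⟩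
    rw [← e]
    let cj : S →* S := (MulAut.conj (d i (Real.log 2))).toMonoidHom
    have hcj : ∀ j, cj (w j) = if j = i then w j ^ 2 else w j := by
      intro j
      split_ifs with h
      · subst h
        refine clos_eq (u j).range (fun x => d j (Real.log 2) * x * (d j (Real.log 2))⁻¹)
          (fun x => x ^ 2) (by fun_prop) (by fun_prop) ?_ _ (hw1 j)
        rintro _ ⟨x, rfl⟩
        rw [← ofAdd_toAdd x, hdu, Real.exp_log (by norm_num), two_mul, ofAdd_add, map_mul, sq]
      · refine clos_eq (u j).range (fun x => d i (Real.log 2) * x * (d i (Real.log 2))⁻¹)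
          (fun x => x) (by fun_prop) (by fun_prop) ?_ _ (hw1 j)
        rintro _ ⟨x, rfl⟩
        rw [hdd i j _ _ (Ne.symm h), mul_inv_cancel_right]
    have hV : ∀ x ∈ V, cj x ∈ V := by
      intro x hx
      have : V ≤ V.comap cj := by
        rw [Subgroup.closure_le]
        rintro _ ⟨j, rfl⟩
        show cj (w j) ∈ V
        rw [hcj]
        split_ifs
        · exact V.pow_mem (w' j).2 2
        · exact (w' j).2
      exact this hx
    let cj' : V →* V := (cj.comp V.subtype).codRestrict V fun x => hV x x.2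
    have hcj' : ∀ j, cj' (w' j) = if j = i then w' j ^ 2 else w' j := by
      intro j
      apply Subtype.ext
      show cj (w j) = _
      rw [hcj]
      split_ifs <;> rfl
    have : cj' (∏ j, w' j ^ a j) * (∏ j, w' j ^ a j)⁻¹ = w' i ^ a i := by
      rw [map_prod, ← Finset.prod_inv_distrib, ← Finset.prod_mul_distrib,
        Finset.prod_eq_single i]
      · rw [map_zpow, hcj', if_pos rfl, sq, mul_zpow, mul_inv_cancel_right]
      · intro j _ hj
        rw [map_zpow, hcj', if_neg hj, mul_inv_cancel]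
      · simp
    exact congrArg Subtype.val this

end Pool.Agent.H.MP_15a5ff_al
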